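import Pool.Agent.Helper41_IR.Stmts

/-!
# IR, module KBND: bounds for the multiplier `kk`
-/

set_option autoImplicit false

open scoped BigOperators

noncomputable section

namespace Pool.Agent.IR.H49

open Pool.Agent.Anderson Pool.Agent.Loc Pool.Agent.BED

variable {d M : ℕ}

/-- exchange of a coordinate with an auxiliary variable -/
def swapE (i : Fin d) : (Tor d M × ZMod M) ≃ (Tor d M × ZMod M) where
  toFun p := (Function.update p.1 i p.2, p.1 i)
  invFun p := (Function.update p.1 i p.2, p.1 i)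
  left_inv p := by
    refine Prod.ext ?_ ?_
    · simp
    · simp
  right_inv p := by
    refine Prod.ext ?_ ?_
    · simp
    · simp

theorem sum_lines [NeZero M] (i : Fin d) (F : Tor d M → ℝ) :
    ∑ θ, ∑ t : ZMod M, F (Function.update θ i t) = (M : ℝ) * ∑ θ, F θ := by
  have h1 : ∑ p : Tor d M × ZMod M, F (Function.update p.1 i p.2) =
      ∑ p : Tor d M × ZMod M, F p.1 :=
    Fintype.sum_equiv (swapE i) _ _ fun p => rfl
  rw [Fintype.sum_prod_type, Fintype.sum_prod_type] at h1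
  rw [h1, Finset.mul_sum]
  refine Finset.sum_congr rfl fun θ _ => ?_
  simp [ZMod.card]

/-- the part of `kk` on the set `R` -/
def KR [NeZero M] (b : Tor d M → ℝ) (ε : ℝ) (R : Set (Tor d M)) (θ : Tor d M) : ℝ :=
  open Classical in if θ ∈ R then kk b ε θ else 0

theorem KR_nonneg [NeZero M] (b : Tor d M → ℝ) {ε : ℝ} (hε : 0 < ε) (R : Set (Tor d M))
    (θ : Tor d M) : 0 ≤ KR b ε R θ := by
  unfold KR
  split_ifs
  · exact (kk_pos b hε θ).le
  · exact le_rfl

theorem log_facts {ε : ℝ} (hε : 0 < ε) (hε2 : ε ≤ 1 / 2) :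
    1 ≤ 2 * Real.log (1 / ε) ∧ Real.log (1 + 2 / ε) ≤ 3 * Real.log (1 / ε) := by
  have h2 : 2 ≤ 1 / ε := by
    rw [le_div_iff₀ hε]; linarith
  have h3 : Real.log 2 ≤ Real.log (1 / ε) := Real.log_le_log (by norm_num) h2
  have h4 := Real.log_two_gt_d9
  refine ⟨by linarith, ?_⟩
  have h5 : 1 + 2 / ε ≤ (1 / ε) ^ 3 := by
    have h6 : (1 / ε) ^ 3 = (1 / ε) * ((1 / ε) * (1 / ε)) := by ring
    have h7 : 4 ≤ (1 / ε) * (1 / ε) := by nlinarith
    have h8 : 1 + 2 / ε ≤ 3 * (1 / ε) := by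
      have : 2 / ε = 2 * (1 / ε) := by ring
      rw [this]; linarith
    nlinarith
  calc Real.log (1 + 2 / ε) ≤ Real.log ((1 / ε) ^ 3) := Real.log_le_log (by positivity) h5
    _ = 3 * Real.log (1 / ε) := by rw [Real.log_pow]; norm_num

/-- the sum of `kk` over a line -/
theorem line_bound [NeZero M] (hLine : LineStmt) {l : ℕ} (hl : 1 ≤ l) (b : Tor d M → ℝ) {ε C : ℝ}
    (hε : 0 < ε) (hε2 : ε ≤ 1 / 2) (hlM : (l : ℝ) ≤ ε * M) (hC : 1 ≤ C) (R : Set (Tor d M))
    (i : Fin d) (h2 : ∀ θ ∈ R, |((θ i).valMinAbs : ℝ)| * l ≤ M)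
    (h3 : ∀ θ t, θ ∈ R → Function.update θ i t ∈ R →
      |((θ i).valMinAbs : ℝ) - (t.valMinAbs : ℝ)| * l ≤
        C * M * |bh b θ - bh b (Function.update θ i t)|) (θ : Tor d M) :
    ∑ t : ZMod M, KR b ε R (Function.update θ i t) ≤
      22 * C * (M / l) * Real.log (1 / ε) := by
  classical
  have hl0 : (0 : ℝ) < l := by exact_mod_cast hl
  have hM0 : (0 : ℝ) < M := by exact_mod_cast Nat.pos_of_ne_zero (NeZero.ne M)
  set S : Finset (ZMod M) := Finset.univ.filter fun t => Function.update θ i t ∈ R with hS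
  set T : Finset ℤ := S.image ZMod.valMinAbs with hT
  set y : ℤ → ℝ := fun s => 1 - bh b (Function.update θ i (s : ZMod M)) with hy
  have hmem : ∀ s ∈ T, Function.update θ i (s : ZMod M) ∈ R ∧ ((s : ZMod M)).valMinAbs = s := by
    intro s hs
    obtain ⟨t, ht, rfl⟩ := Finset.mem_image.1 hs
    rw [ZMod.coe_valMinAbs]
    exact ⟨(Finset.mem_filter.1 ht).2, rfl⟩
  have hsum : ∑ t : ZMod M, KR b ε R (Function.update θ i t) =
      ∑ s ∈ T, 1 / Real.sqrt (y s ^ 2 + ε ^ 2) := by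
    rw [hT, Finset.sum_image (fun a _ c _ h => ZMod.injective_valMinAbs h), hS,
      Finset.sum_filter]
    refine Finset.sum_congr rfl fun t _ => ?_
    unfold KR
    by_cases h : Function.update θ i t ∈ R
    · rw [if_pos h, if_pos h]
      simp only [hy, ZMod.coe_valMinAbs]
      rfl
    · rw [if_neg h, if_neg h]
  set δ : ℝ := l / (C * M) with hδ
  have hδ0 : 0 < δ := by positivity
  have hsep : ∀ s ∈ T, ∀ t ∈ T, δ * |(s : ℝ) - t| ≤ |y s - y t| := by
    intro s hs t ht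
    obtain ⟨hs1, hs2⟩ := hmem s hs
    obtain ⟨ht1, ht2⟩ := hmem t ht
    have := h3 (Function.update θ i (s : ZMod M)) (t : ZMod M) hs1 (by
      rwa [Function.update_idem])
    rw [Function.update_idem, Function.update_self, hs2, ht2] at this
    have e1 : |y s - y t| =
        |bh b (Function.update θ i (s : ZMod M)) - bh b (Function.update θ i (t : ZMod M))| := by
      simp only [hy]
      rw [abs_sub_comm]
      congr 1
      ring
    rw [e1, hδ, div_mul_eq_mul_div, div_le_iff₀ (by positivity)]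
    nlinarith
  set N : ℕ := ⌊2 * (M : ℝ) / l⌋₊ with hN
  have hN1 : (N : ℝ) ≤ 2 * M / l := Nat.floor_le (by positivity)
  have hdiff : ∀ s ∈ T, ∀ t ∈ T, |s - t| ≤ N := by
    intro s hs t ht
    obtain ⟨hs1, hs2⟩ := hmem s hs
    obtain ⟨ht1, ht2⟩ := hmem t ht
    have a1 := h2 _ hs1
    have a2 := h2 _ ht1
    rw [Function.update_self, hs2] at a1
    rw [Function.update_self, ht2] at a2
    have a3 : |((s : ℝ)) - t| * l ≤ 2 * M := by
      have := abs_sub (s : ℝ) t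
      nlinarith
    have a4 : ((s - t).natAbs : ℝ) ≤ 2 * M / l := by
      rw [le_div_iff₀ hl0, Nat.cast_natAbs]
      push_cast
      exact a3
    have a5 : (s - t).natAbs ≤ N := Nat.le_floor a4
    have a6 : |s - t| = ((s - t).natAbs : ℤ) := (Int.natCast_natAbs _).symm
    rw [a6]
    exact_mod_cast a5
  have hmain := hLine T y δ ε N hδ0 hε hsep hdiff
  rw [hsum]
  refine hmain.trans ?_
  obtain ⟨g1, g2⟩ := log_facts hε hε2
  have b1 : 2 / ε ≤ 4 * (M / l) * Real.log (1 / ε) := by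
    have c1 : 1 / ε ≤ M / l := by
      rw [div_le_div_iff₀ hε hl0]
      linarith
    have c2 : 0 < M / (l : ℝ) := by positivity
    have c3 : 2 / ε = 2 * (1 / ε) := by ring
    rw [c3]
    nlinarith
  have b2 : Real.log (1 + N * δ / ε) ≤ 3 * Real.log (1 / ε) := by
    refine le_trans (Real.log_le_log (by positivity) ?_) g2
    have c1 : N * δ ≤ 2 := by
      calc N * δ ≤ 2 * M / l * δ := mul_le_mul_of_nonneg_right hN1 hδ0.le
        _ = 2 / C := by rw [hδ]; field_simp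
        _ ≤ 2 := by
          rw [div_le_iff₀ (by linarith)]
          linarith
    have : N * δ / ε ≤ 2 / ε := div_le_div_of_nonneg_right c1 hε.le
    linarith
  have b3 : 6 / δ = 6 * C * (M / l) := by
    rw [hδ]; field_simp
  have b4 : 6 / δ * Real.log (1 + N * δ / ε) ≤ 6 * C * (M / l) * (3 * Real.log (1 / ε)) := by
    rw [b3]
    exact mul_le_mul_of_nonneg_left b2 (by positivity)
  have b5 : 0 ≤ M / (l : ℝ) * Real.log (1 / ε) :=
    mul_nonneg (by positivity) (by linarith)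
  nlinarith

/-- number of elements of `ZMod M` close to zero -/
theorem card_small [NeZero M] {l : ℕ} (hl : 1 ≤ l) (hlM : (l : ℝ) ≤ M) :
    ((Finset.univ.filter fun a : ZMod M => |(a.valMinAbs : ℝ)| * l ≤ M).card : ℝ) ≤
      3 * (M / l) := by
  classical
  have hl0 : (0 : ℝ) < l := by exact_mod_cast hl
  set K : ℕ := ⌊(M : ℝ) / l⌋₊ with hK
  have hK1 : (K : ℝ) ≤ M / l := Nat.floor_le (by positivity)
  have h1 : (Finset.univ.filter fun a : ZMod M => |(a.valMinAbs : ℝ)| * l ≤ M).card ≤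
      (Finset.Icc (-(K : ℤ)) K).card := by
    refine Finset.card_le_card_of_injOn ZMod.valMinAbs ?_ fun a _ c _ h =>
      ZMod.injective_valMinAbs h
    intro a ha
    have ha2 := (Finset.mem_filter.1 (Finset.mem_coe.1 ha)).2
    have a4 : ((a.valMinAbs).natAbs : ℝ) ≤ M / l := by
      rw [le_div_iff₀ hl0, Nat.cast_natAbs]
      push_cast
      exact ha2
    have a5 : (a.valMinAbs).natAbs ≤ K := Nat.le_floor a4
    rw [Finset.mem_coe, Finset.mem_Icc]
    omega
  have h2 : (Finset.Icc (-(K : ℤ)) K).card = 2 * K + 1 := by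
    rw [Int.card_Icc]
    omega
  rw [h2] at h1
  have h3 : ((Finset.univ.filter fun a : ZMod M => |(a.valMinAbs : ℝ)| * l ≤ M).card : ℝ) ≤
      2 * K + 1 := by exact_mod_cast h1
  have h4 : 1 ≤ (M : ℝ) / l := by
    rw [le_div_iff₀ hl0]; linarith
  linarith

/-- the sum of `kk` over a region -/
theorem region_sum [NeZero M] (hLine : LineStmt) {l : ℕ} (hl : 1 ≤ l) (b : Tor d M → ℝ) {ε C : ℝ}
    (hε : 0 < ε) (hε2 : ε ≤ 1 / 2) (hlM : (l : ℝ) ≤ ε * M) (hC : 1 ≤ C) (R : Set (Tor d M))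
    (i : Fin d) (h2 : ∀ θ ∈ R, ∀ j, |((θ j).valMinAbs : ℝ)| * l ≤ M)
    (h3 : ∀ θ t, θ ∈ R → Function.update θ i t ∈ R →
      |((θ i).valMinAbs : ℝ) - (t.valMinAbs : ℝ)| * l ≤
        C * M * |bh b θ - bh b (Function.update θ i t)|) :
    (l : ℝ) ^ d * ∑ θ, KR b ε R θ ≤ 22 * C * 3 ^ d * (M : ℝ) ^ d * Real.log (1 / ε) := by
  classical
  have hl0 : (0 : ℝ) < l := by exact_mod_cast hl
  have hM0 : (0 : ℝ) < M := by exact_mod_cast Nat.pos_of_ne_zero (NeZero.ne M)
  have hlM1 : (l : ℝ) ≤ M := by nlinarith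
  obtain ⟨g1, -⟩ := log_facts hε hε2
  set A : Finset (ZMod M) := Finset.univ.filter fun a : ZMod M => |(a.valMinAbs : ℝ)| * l ≤ M
    with hA
  set L : ℝ := 22 * C * (M / l) * Real.log (1 / ε) with hL
  have hL0 : 0 ≤ L := by
    rw [hL]
    have : 0 ≤ Real.log (1 / ε) := by linarith
    positivity
  set P : Finset (Tor d M) := Fintype.piFinset fun j => if j = i then Finset.univ else A with hP
  have hcard : (P.card : ℝ) ≤ M * (3 * (M / l)) ^ (d - 1) := by
    rw [hP, Fintype.card_piFinset]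
    push_cast
    rw [← Finset.mul_prod_erase Finset.univ _ (Finset.mem_univ i), if_pos rfl, Finset.card_univ,
      ZMod.card]
    refine mul_le_mul_of_nonneg_left ?_ hM0.le
    calc ∏ j ∈ Finset.univ.erase i, (((if j = i then Finset.univ else A : Finset (ZMod M)).card : ℕ) : ℝ)
        ≤ ∏ _j ∈ Finset.univ.erase i, (3 * (M / l) : ℝ) := by
          refine Finset.prod_le_prod (fun j _ => by positivity) fun j hj => ?_
          rw [if_neg (Finset.ne_of_mem_erase hj)]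
          exact card_small hl hlM1
      _ = (3 * (M / l) : ℝ) ^ (d - 1) := by
          rw [Finset.prod_const, Finset.card_erase_of_mem (Finset.mem_univ i), Finset.card_univ,
            Fintype.card_fin]
  have hlines : ∀ θ : Tor d M, ∑ t : ZMod M, KR b ε R (Function.update θ i t) ≤
      if θ ∈ P then L else 0 := by
    intro θ
    split_ifs with h
    · exact line_bound hLine hl b hε hε2 hlM hC R i (fun θ hθ => h2 θ hθ i) h3 θ
    · refine le_of_eq (Finset.sum_eq_zero fun t _ => ?_)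
      unfold KR
      rw [if_neg]
      intro hR
      apply h
      rw [hP, Fintype.mem_piFinset]
      intro j
      by_cases hj : j = i
      · rw [if_pos hj]; exact Finset.mem_univ _
      · rw [if_neg hj, hA, Finset.mem_filter]
        refine ⟨Finset.mem_univ _, ?_⟩
        have := h2 _ hR j
        rwa [Function.update_of_ne hj] at this
  have h4 : (M : ℝ) * ∑ θ, KR b ε R θ ≤ M * (3 * (M / l)) ^ (d - 1) * L := by
    rw [← sum_lines i]
    calc ∑ θ, ∑ t : ZMod M, KR b ε R (Function.update θ i t) ≤ ∑ θ, if θ ∈ P then L else 0 :=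
          Finset.sum_le_sum fun θ _ => hlines θ
      _ = P.card * L := by
          rw [← Finset.sum_filter]
          simp
      _ ≤ M * (3 * (M / l)) ^ (d - 1) * L := mul_le_mul_of_nonneg_right hcard hL0
  have h5 : ∑ θ, KR b ε R θ ≤ (3 * (M / l)) ^ (d - 1) * L := by
    have : (M : ℝ) * ∑ θ, KR b ε R θ ≤ M * ((3 * (M / l)) ^ (d - 1) * L) := by
      rw [← mul_assoc]; exact h4
    exact le_of_mul_le_mul_left this hM0
  have hd : d = (d - 1) + 1 := by
    have := i.pos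
    omega
  have h6 : (l : ℝ) ^ d * ((3 * (M / l)) ^ (d - 1) * L) =
      22 * C * 3 ^ (d - 1) * (M : ℝ) ^ d * Real.log (1 / ε) := by
    rw [hL]
    obtain ⟨n, hn⟩ : ∃ n, d = n + 1 := ⟨d - 1, hd⟩
    have hn1 : d - 1 = n := by omega
    rw [hn1, hn, mul_pow, div_pow]
    field_simp
    ring
  calc (l : ℝ) ^ d * ∑ θ, KR b ε R θ ≤ (l : ℝ) ^ d * ((3 * (M / l)) ^ (d - 1) * L) :=
        mul_le_mul_of_nonneg_left h5 (by positivity)
    _ = 22 * C * 3 ^ (d - 1) * (M : ℝ) ^ d * Real.log (1 / ε) := h6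
    _ ≤ 22 * C * 3 ^ d * (M : ℝ) ^ d * Real.log (1 / ε) := by
        have h7 : (3 : ℝ) ^ (d - 1) ≤ 3 ^ d := pow_le_pow_right₀ (by norm_num) (by omega)
        have h8 : 0 ≤ Real.log (1 / ε) := by linarith
        have h9 : 0 ≤ (M : ℝ) ^ d * Real.log (1 / ε) := by positivity
        nlinarith [mul_le_mul_of_nonneg_right h7 (mul_nonneg (by linarith : (0 : ℝ) ≤ 22 * C) h9)]

/-- the weighted sum of `kk` over a region, for functions supported in a box -/
theorem region_box [NeZero M] (hLine : LineStmt) (hSlice : SliceStmt) {l : ℕ} (hl : 1 ≤ l)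
    (b : Tor d M → ℝ) {ε C : ℝ}
    (hε : 0 < ε) (hε2 : ε ≤ 1 / 2) (hlM : (l : ℝ) ≤ ε * M) (hC : 1 ≤ C) (R : Set (Tor d M))
    (i : Fin d) (h2 : ∀ θ ∈ R, ∀ j, |((θ j).valMinAbs : ℝ)| * l ≤ M)
    (h3 : ∀ θ t, θ ∈ R → Function.update θ i t ∈ R →
      |((θ i).valMinAbs : ℝ) - (t.valMinAbs : ℝ)| * l ≤
        C * M * |bh b θ - bh b (Function.update θ i t)|)
    (w : Tor d M → ℝ) (x0 : Tor d M) (ρ : ℕ)
    (hw : ∀ x, w x ≠ 0 → ∀ i, ((x i - x0 i).valMinAbs).natAbs ≤ ρ) :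
    ∑ θ, KR b ε R θ * ft w θ ≤
      22 * C * ((2 * ρ + 1) / l * Real.log (1 / ε)) * ∑ θ, ft w θ := by
  classical
  have hl0 : (0 : ℝ) < l := by exact_mod_cast hl
  have hM0 : (0 : ℝ) < M := by exact_mod_cast Nat.pos_of_ne_zero (NeZero.ne M)
  set L : ℝ := 22 * C * (M / l) * Real.log (1 / ε) with hL
  have hs := hSlice d M w i (x0 i) ρ (fun x hx => hw x hx i)
  have key : ∀ θ : Tor d M, ∑ t : ZMod M, KR b ε R (Function.update θ i t) *
      ((M : ℝ) * ft w (Function.update θ i t)) ≤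
        (2 * ρ + 1) * L * ∑ t : ZMod M, ft w (Function.update θ i t) := by
    intro θ
    have hp : 0 ≤ ∑ t : ZMod M, ft w (Function.update θ i t) :=
      Finset.sum_nonneg fun t _ => ft_nonneg _ _
    calc ∑ t : ZMod M, KR b ε R (Function.update θ i t) *
          ((M : ℝ) * ft w (Function.update θ i t))
        ≤ ∑ t : ZMod M, KR b ε R (Function.update θ i t) *
          ((2 * ρ + 1) * ∑ t : ZMod M, ft w (Function.update θ i t)) := by
          refine Finset.sum_le_sum fun t _ => ?_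
          refine mul_le_mul_of_nonneg_left ?_ (KR_nonneg b hε R _)
          have := hs (Function.update θ i t)
          simpa only [Function.update_idem] using this
      _ = (∑ t : ZMod M, KR b ε R (Function.update θ i t)) *
          ((2 * ρ + 1) * ∑ t : ZMod M, ft w (Function.update θ i t)) := by
          rw [Finset.sum_mul]
      _ ≤ L * ((2 * ρ + 1) * ∑ t : ZMod M, ft w (Function.update θ i t)) := by
          refine mul_le_mul_of_nonneg_right ?_ (by positivity)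
          exact line_bound hLine hl b hε hε2 hlM hC R i (fun θ hθ => h2 θ hθ i) h3 θ
      _ = (2 * ρ + 1) * L * ∑ t : ZMod M, ft w (Function.update θ i t) := by ring
  have h4 : (M : ℝ) * ∑ θ, KR b ε R θ * ((M : ℝ) * ft w θ) ≤
      (2 * ρ + 1) * L * ((M : ℝ) * ∑ θ, ft w θ) := by
    rw [← sum_lines i, ← sum_lines i, Finset.mul_sum]
    exact Finset.sum_le_sum fun θ _ => key θ
  have h5 : ∑ θ, KR b ε R θ * ((M : ℝ) * ft w θ) = M * ∑ θ, KR b ε R θ * ft w θ := by
    rw [Finset.mul_sum]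
    exact Finset.sum_congr rfl fun θ _ => by ring
  rw [h5] at h4
  have h6 : (2 * ρ + 1) * L * ((M : ℝ) * ∑ θ, ft w θ) =
      M * (M * (22 * C * ((2 * ρ + 1) / l * Real.log (1 / ε)) * ∑ θ, ft w θ)) := by
    rw [hL]
    field_simp
  rw [h6] at h4
  exact le_of_mul_le_mul_left (le_of_mul_le_mul_left h4 hM0) hM0

/-- splitting of `kk` -/
theorem kk_split [NeZero M] (b : Tor d M → ℝ) {ε C : ℝ} (hε : 0 < ε) (hC : 1 ≤ C)
    (R : Fin d → Bool → Set (Tor d M))
    (h1 : ∀ θ, (∀ i s, θ ∉ R i s) → 1 ≤ C * |1 - bh b θ|) (θ : Tor d M) :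
    kk b ε θ ≤ C + ∑ i, ∑ s, KR b ε (R i s) θ := by
  classical
  have h0 : ∀ i s, 0 ≤ KR b ε (R i s) θ := fun i s => KR_nonneg b hε _ θ
  by_cases h : ∀ i s, θ ∉ R i s
  · have h2 := h1 θ h
    have h3 : kk b ε θ ≤ C := by
      unfold kk
      have hpos : 0 < |1 - bh b θ| := by
        by_contra hc
        have : |1 - bh b θ| = 0 := le_antisymm (not_lt.1 hc) (abs_nonneg _)
        rw [this] at h2
        linarith
      have h4 : |1 - bh b θ| ≤ Real.sqrt ((1 - bh b θ) ^ 2 + ε ^ 2) := by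
        rw [← Real.sqrt_sq_eq_abs]
        exact Real.sqrt_le_sqrt (by nlinarith [sq_nonneg ε])
      rw [div_le_iff₀ (lt_of_lt_of_le hpos h4)]
      nlinarith
    have h5 : 0 ≤ ∑ i, ∑ s, KR b ε (R i s) θ :=
      Finset.sum_nonneg fun i _ => Finset.sum_nonneg fun s _ => h0 i s
    linarith
  · push Not at h
    obtain ⟨i, s, his⟩ := h
    have h3 : KR b ε (R i s) θ = kk b ε θ := by
      unfold KR
      rw [if_pos his]
    have h4 : KR b ε (R i s) θ ≤ ∑ s, KR b ε (R i s) θ :=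
      Finset.single_le_sum (f := fun s => KR b ε (R i s) θ) (fun s _ => h0 i s)
        (Finset.mem_univ s)
    have h5 : ∑ s, KR b ε (R i s) θ ≤ ∑ i, ∑ s, KR b ε (R i s) θ :=
      Finset.single_le_sum (f := fun i => ∑ s, KR b ε (R i s) θ)
        (fun i _ => Finset.sum_nonneg fun s _ => h0 i s) (Finset.mem_univ i)
    linarith

/-- Module KBND. -/
theorem kbnd (hSym : SymStmt) (hFour : FourStmt) (hSlice : SliceStmt) (hLine : LineStmt) :
    KbndStmt := by
  intro d hd C hC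
  obtain ⟨γ0, hγ0, H⟩ := hSym d hd C hC
  refine ⟨γ0, hγ0, fun τ hτ => ?_⟩
  obtain ⟨ε0, C1, hε0, hC1, H⟩ := H τ hτ
  set C2 : ℝ := max C1 1 with hC2
  have hC21 : 1 ≤ C2 := le_max_right _ _
  set Cf : ℝ := C2 * (1 + 44 * d * 3 ^ d) with hCf
  have hd1 : (1 : ℝ) ≤ d := by exact_mod_cast hd
  have h3d : (1 : ℝ) ≤ 3 ^ d := one_le_pow₀ (by norm_num)
  refine ⟨min ε0 (1 / 2), Cf, lt_min hε0 (by norm_num), min_le_right _ _, ?_, ?_⟩
  · rw [hCf]
    nlinarith [mul_nonneg (by linarith : (0 : ℝ) ≤ (d : ℝ)) (by linarith : (0 : ℝ) ≤ (3 : ℝ) ^ d)]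
  intro M l _ b γ ε hl hε hεle hlM hγ hγ1 hb
  have hε2 : ε ≤ 1 / 2 := hεle.trans (min_le_right _ _)
  have hM0 : (0 : ℝ) < M := by exact_mod_cast Nat.pos_of_ne_zero (NeZero.ne M)
  have hl0 : (0 : ℝ) < l := by exact_mod_cast hl
  have hlM0 : (l : ℝ) ≤ ε0 * M :=
    hlM.trans (mul_le_mul_of_nonneg_right (hεle.trans (min_le_left _ _)) hM0.le)
  obtain ⟨R, r1, r2, r3⟩ := H M l b γ hl hlM0 hγ hγ1 hb
  have r1' : ∀ θ, (∀ i s, θ ∉ R i s) → 1 ≤ C2 * |1 - bh b θ| := fun θ hθ =>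
    (r1 θ hθ).trans (mul_le_mul_of_nonneg_right (le_max_left _ _) (abs_nonneg _))
  have r3' : ∀ i s θ t, θ ∈ R i s → Function.update θ i t ∈ R i s →
      |((θ i).valMinAbs : ℝ) - (t.valMinAbs : ℝ)| * l ≤
        C2 * M * |bh b θ - bh b (Function.update θ i t)| := fun i s θ t h1 h2 =>
    (r3 i s θ t h1 h2).trans (mul_le_mul_of_nonneg_right
      (mul_le_mul_of_nonneg_right (le_max_left _ _) hM0.le) (abs_nonneg _))
  obtain ⟨g1, -⟩ := log_facts hε hε2
  have hlog : 0 ≤ Real.log (1 / ε) := by linarith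
  obtain ⟨f1, -, -, -, -, -, f7⟩ := hFour d M
  have hsplit : ∀ w : Tor d M → ℝ, ∑ θ, kk b ε θ * ft w θ ≤
      C2 * sqn w + ∑ i, ∑ s, ∑ θ, KR b ε (R i s) θ * ft w θ := by
    intro w
    calc ∑ θ, kk b ε θ * ft w θ ≤ ∑ θ, (C2 + ∑ i, ∑ s, KR b ε (R i s) θ) * ft w θ :=
          Finset.sum_le_sum fun θ _ =>
            mul_le_mul_of_nonneg_right (kk_split b hε hC21 R r1' θ) (ft_nonneg _ _)
      _ = C2 * ∑ θ, ft w θ + ∑ θ, (∑ i, ∑ s, KR b ε (R i s) θ) * ft w θ := by
          rw [Finset.mul_sum, ← Finset.sum_add_distrib]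
          exact Finset.sum_congr rfl fun θ _ => by ring
      _ = C2 * sqn w + ∑ i, ∑ s, ∑ θ, KR b ε (R i s) θ * ft w θ := by
          rw [f1 w]
          congr 1
          simp only [Finset.sum_mul]
          rw [Finset.sum_comm]
          refine Finset.sum_congr rfl fun i _ => ?_
          rw [Finset.sum_comm]
  constructor
  · intro w x0 ρ hw
    refine (hsplit w).trans ?_
    have h1 : ∑ i : Fin d, ∑ s : Bool, ∑ θ, KR b ε (R i s) θ * ft w θ ≤
        ∑ _i : Fin d, ∑ _s : Bool, 22 * C2 * ((2 * ρ + 1) / l * Real.log (1 / ε)) * sqn w := by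
      refine Finset.sum_le_sum fun i _ => Finset.sum_le_sum fun s _ => ?_
      have := region_box hLine hSlice hl b hε hε2 hlM hC21 (R i s) i (fun θ hθ j => r2 i s θ hθ j)
        (r3' i s) w x0 ρ hw
      rwa [f1 w] at this
    refine (add_le_add_right h1 _).trans ?_
    simp only [Finset.sum_const, Finset.card_univ, Fintype.card_fin, Fintype.card_bool,
      nsmul_eq_mul]
    have hq := sqn_nonneg w
    have hX : 0 ≤ (2 * (ρ : ℝ) + 1) / l * Real.log (1 / ε) := by positivity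
    set X : ℝ := (2 * (ρ : ℝ) + 1) / l * Real.log (1 / ε) with hXd
    have e1 : Cf * (1 + X) * sqn w - (C2 * sqn w +
        (d : ℝ) * (((2 : ℕ) : ℝ) * (22 * C2 * X * sqn w))) =
        C2 * sqn w * (X + 44 * d * 3 ^ d + 44 * d * (3 ^ d - 1) * X) := by
      rw [hCf]; push_cast; ring
    have e2 : 0 ≤ C2 * sqn w * (X + 44 * d * 3 ^ d + 44 * d * (3 ^ d - 1) * X) := by
      have : (0 : ℝ) ≤ 3 ^ d - 1 := by linarith
      positivity
    linarith
  · intro g
    have h0 := hsplit g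
    have h1 : ∀ i s, (l : ℝ) ^ d * ∑ θ, KR b ε (R i s) θ * ft g θ ≤
        22 * C2 * 3 ^ d * Real.log (1 / ε) * (∑ x, |g x|) ^ 2 := by
      intro i s
      have a1 : ∑ θ, KR b ε (R i s) θ * ft g θ ≤
          ∑ θ, KR b ε (R i s) θ * ((∑ x, |g x|) ^ 2 / (M : ℝ) ^ d) := by
        refine Finset.sum_le_sum fun θ _ => mul_le_mul_of_nonneg_left ?_ (KR_nonneg b hε _ _)
        rw [le_div_iff₀ (by positivity), mul_comm]
        exact f7 g θ
      rw [← Finset.sum_mul] at a1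
      have a2 := region_sum hLine hl b hε hε2 hlM hC21 (R i s) i (fun θ hθ j => r2 i s θ hθ j)
        (r3' i s)
      calc (l : ℝ) ^ d * ∑ θ, KR b ε (R i s) θ * ft g θ
          ≤ (l : ℝ) ^ d * ((∑ θ, KR b ε (R i s) θ) * ((∑ x, |g x|) ^ 2 / (M : ℝ) ^ d)) :=
            mul_le_mul_of_nonneg_left a1 (by positivity)
        _ = ((l : ℝ) ^ d * ∑ θ, KR b ε (R i s) θ) * ((∑ x, |g x|) ^ 2 / (M : ℝ) ^ d) := by ring
        _ ≤ (22 * C2 * 3 ^ d * (M : ℝ) ^ d * Real.log (1 / ε)) *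
            ((∑ x, |g x|) ^ 2 / (M : ℝ) ^ d) := mul_le_mul_of_nonneg_right a2 (by positivity)
        _ = 22 * C2 * 3 ^ d * Real.log (1 / ε) * (∑ x, |g x|) ^ 2 := by field_simp
    have h2 : (l : ℝ) ^ d * ∑ i, ∑ s, ∑ θ, KR b ε (R i s) θ * ft g θ ≤
        ∑ _i : Fin d, ∑ _s : Bool, 22 * C2 * 3 ^ d * Real.log (1 / ε) * (∑ x, |g x|) ^ 2 := by
      rw [Finset.mul_sum]
      refine Finset.sum_le_sum fun i _ => ?_
      rw [Finset.mul_sum]
      exact Finset.sum_le_sum fun s _ => h1 i s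
    simp only [Finset.sum_const, Finset.card_univ, Fintype.card_fin, Fintype.card_bool,
      nsmul_eq_mul] at h2
    have h3 : (l : ℝ) ^ d * ∑ θ, kk b ε θ * ft g θ ≤ (l : ℝ) ^ d * (C2 * sqn g) +
        (l : ℝ) ^ d * ∑ i, ∑ s, ∑ θ, KR b ε (R i s) θ * ft g θ := by
      rw [← mul_add]
      exact mul_le_mul_of_nonneg_left h0 (by positivity)
    have hq := sqn_nonneg g
    set Y : ℝ := (∑ x, |g x|) ^ 2 with hY
    have hY0 : 0 ≤ Y := by positivity
    have hld : 0 < (l : ℝ) ^ d := by positivity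
    have e1 : Cf * ((l : ℝ) ^ d * sqn g + Real.log (1 / ε) * Y) - ((l : ℝ) ^ d * (C2 * sqn g) +
        (d : ℝ) * (((2 : ℕ) : ℝ) * (22 * C2 * 3 ^ d * Real.log (1 / ε) * Y))) =
        C2 * (Real.log (1 / ε) * Y + 44 * d * 3 ^ d * ((l : ℝ) ^ d * sqn g)) := by
      rw [hCf]; push_cast; ring
    have e2 : 0 ≤ C2 * (Real.log (1 / ε) * Y + 44 * d * 3 ^ d * ((l : ℝ) ^ d * sqn g)) := by
      positivity
    linarith

end Pool.Agent.IR.H49
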